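import Pool.Agent.X171.EL.Stm

open MeasureTheory Set
open scoped ENNReal

namespace Pool.Agent.X77.ELW

open Pool.Agent.X171.EL

noncomputable def wt (A : Set ℕ) (S : Finset ℕ) : ℝ := by
  classical
  exact ((S.filter (fun i => i ∈ A)).card : ℝ) / (S.card : ℝ)

theorem wt_nonneg (A : Set ℕ) (S : Finset ℕ) : 0 ≤ wt A S := by
  unfold wt
  positivity

theorem wt_le (A : Set ℕ) (S : Finset ℕ) : wt A S ≤ 1 := by
  classical
  unfold wt
  apply div_le_one_of_le₀
  · exact_mod_cast Finset.card_filter_le _ _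
  · positivity

theorem wt_add (A B : Set ℕ) (h : Disjoint A B) (S : Finset ℕ) :
    wt (A ∪ B) S = wt A S + wt B S := by
  classical
  unfold wt
  rw [← add_div]
  congr 1
  rw [← Nat.cast_add, ← Finset.card_union_of_disjoint]
  · congr 2
    ext i
    simp only [Finset.mem_filter, Set.mem_union, Finset.mem_union]
    tauto
  · rw [Finset.disjoint_filter]
    intro i _ h1 h2
    exact (Set.disjoint_left.1 h) h1 h2

theorem wt_univ (S : Finset ℕ) : wt univ S = if S = ∅ then 0 else 1 := by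
  classical
  unfold wt
  split_ifs with h
  · subst h; simp
  · have : (S.card : ℝ) ≠ 0 := by
      simpa using h
    simp [this]

theorem wt_map (π : Equiv.Perm ℕ) (A : Set ℕ) (S : Finset ℕ) :
    wt A (S.map π.toEmbedding) = wt (π ⁻¹' A) S := by
  classical
  unfold wt
  rw [Finset.card_map, Finset.filter_map, Finset.card_map]
  rfl

theorem summable_wt {f : Finset ℕ → ℝ} (hf : Summable f) (h0 : ∀ S, 0 ≤ f S) (A : Set ℕ) :
    Summable fun S => f S * wt A S := by
  refine Summable.of_nonneg_of_le (fun S => mul_nonneg (h0 S) (wt_nonneg A S)) (fun S => ?_) hf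
  exact mul_le_of_le_one_right (h0 S) (wt_le A S)

variable (b : HilbertBasis (Finset ℕ) ℝ X2)

theorem sq_summable (v : X2) : Summable fun S => (b.repr v S) ^ 2 := by
  have h := (b.repr v).2
  have := (memℓp_gen_iff (p := 2) (by norm_num)).1 h
  simpa using this

theorem sq_tsum (v : X2) : ∑' S, (b.repr v S) ^ 2 = ‖v‖ ^ 2 := by
  have h := lp.norm_rpow_eq_tsum (p := 2) (by norm_num) (b.repr v)
  have h2 : ‖b.repr v‖ = ‖v‖ := b.repr.norm_map v
  rw [h2] at h
  simp at h
  exact h.symm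

noncomputable def q (A : Set ℕ) (v : X2) : ℝ := ∑' S, (b.repr v S) ^ 2 * wt A S

theorem q_nonneg (A : Set ℕ) (v : X2) : 0 ≤ q b A v :=
  tsum_nonneg fun S => mul_nonneg (sq_nonneg _) (wt_nonneg A S)

theorem q_add (A B : Set ℕ) (h : Disjoint A B) (v : X2) : q b (A ∪ B) v = q b A v + q b B v := by
  unfold q
  rw [← (summable_wt (sq_summable b v) (fun _ => sq_nonneg _) A).tsum_add
    (summable_wt (sq_summable b v) (fun _ => sq_nonneg _) B)]
  refine tsum_congr fun S => ?_
  rw [wt_add A B h S]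
  ring

theorem q_lip (A : Set ℕ) (v w : X2) : |q b A v - q b A w| ≤ ‖v - w‖ * (‖v‖ + ‖w‖) := by
  have hs := sq_summable b (v - w)
  have hp := sq_summable b (v + w)
  have e1 : q b A v - q b A w =
      ∑' S, (b.repr (v - w) S * b.repr (v + w) S) * wt A S := by
    unfold q
    rw [← (summable_wt (sq_summable b v) (fun _ => sq_nonneg _) A).tsum_sub
      (summable_wt (sq_summable b w) (fun _ => sq_nonneg _) A)]
    refine tsum_congr fun S => ?_
    rw [map_sub, map_add]
    show _ = ((b.repr v S - b.repr w S) * (b.repr v S + b.repr w S)) * wt A S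
    ring
  have hprod : Summable fun S => |b.repr (v - w) S| * |b.repr (v + w) S| := by
    refine Summable.of_nonneg_of_le (fun S => by positivity) (fun S => ?_) (hs.add hp)
    have := two_mul_le_add_sq |b.repr (v - w) S| |b.repr (v + w) S|
    rw [sq_abs, sq_abs] at this
    nlinarith [sq_nonneg (b.repr (v - w) S), sq_nonneg (b.repr (v + w) S),
      mul_nonneg (abs_nonneg (b.repr (v - w) S)) (abs_nonneg (b.repr (v + w) S))]
  rw [e1]
  have h1 : |∑' S, (b.repr (v - w) S * b.repr (v + w) S) * wt A S| ≤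
      ∑' S, |b.repr (v - w) S| * |b.repr (v + w) S| := by
    rw [← Real.norm_eq_abs]
    refine tsum_of_norm_bounded hprod.hasSum fun S => ?_
    rw [Real.norm_eq_abs, abs_mul, abs_mul, abs_of_nonneg (wt_nonneg A S)]
    exact mul_le_of_le_one_right (by positivity) (wt_le A S)
  refine h1.trans ?_
  have h2 := Real.inner_le_Lp_mul_Lq_tsum_of_nonneg (p := 2) (q := 2)
    (f := fun S => |b.repr (v - w) S|) (g := fun S => |b.repr (v + w) S|)
    Real.HolderConjugate.two_two (fun S => abs_nonneg _) (fun S => abs_nonneg _)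
    (by simpa using hs) (by simpa using hp)
  have h3 := h2
  have e2 : (∑' S, |b.repr (v - w) S| ^ (2 : ℝ)) ^ (1 / (2 : ℝ)) = ‖v - w‖ := by
    have : (∑' S, |b.repr (v - w) S| ^ (2 : ℝ)) = ‖v - w‖ ^ 2 := by
      rw [← sq_tsum b]
      refine tsum_congr fun S => ?_
      simp
    rw [this, ← Real.sqrt_eq_rpow, Real.sqrt_sq (norm_nonneg _)]
  have e3 : (∑' S, |b.repr (v + w) S| ^ (2 : ℝ)) ^ (1 / (2 : ℝ)) = ‖v + w‖ := by
    have : (∑' S, |b.repr (v + w) S| ^ (2 : ℝ)) = ‖v + w‖ ^ 2 := by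
      rw [← sq_tsum b]
      refine tsum_congr fun S => ?_
      simp
    rw [this, ← Real.sqrt_eq_rpow, Real.sqrt_sq (norm_nonneg _)]
  rw [e2, e3] at h3
  exact h3.trans (mul_le_mul_of_nonneg_left (norm_add_le _ _) (norm_nonneg _))

theorem q_univ (h0 : b ∅ = Lp.const 2 Pr (1 : ℝ)) (v : X2) :
    q b univ v = ‖v‖ ^ 2 - (∫ ω, v ω ∂Pr) ^ 2 := by
  classical
  have e : b.repr v ∅ = ∫ ω, v ω ∂Pr := by
    rw [HilbertBasis.repr_apply_apply, h0, L2.inner_def]
    refine integral_congr_ae ?_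
    filter_upwards [Lp.coeFn_const (p := 2) (μ := Pr) (1 : ℝ)] with ω hω
    rw [hω]
    simp
  rw [← e, ← sq_tsum b v, (sq_summable b v).tsum_eq_add_tsum_ite ∅]
  unfold q
  rw [add_sub_cancel_left]
  refine tsum_congr fun S => ?_
  rw [wt_univ]
  split_ifs <;> simp

theorem q_equiv (hT : ∀ (π : Equiv.Perm ℕ) (h : MeasurePreserving (pm π) Pr Pr) (S : Finset ℕ),
      Lp.compMeasurePreserving (pm π) h (b S) = b (S.map π.toEmbedding))
    (π : Equiv.Perm ℕ) (h : MeasurePreserving (pm π) Pr Pr) (A : Set ℕ) (v : X2) :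
    q b A (Lp.compMeasurePreserving (pm π) h v) = q b (π ⁻¹' A) v := by
  unfold q
  rw [← (π.finsetCongr).tsum_eq]
  refine tsum_congr fun S => ?_
  have e1 : (π.finsetCongr) S = S.map π.toEmbedding := rfl
  rw [e1, wt_map]
  congr 2
  rw [HilbertBasis.repr_apply_apply, HilbertBasis.repr_apply_apply, ← hT π h S, L2.inner_def,
    L2.inner_def]
  have h1 := Lp.coeFn_compMeasurePreserving v h
  have h2 := Lp.coeFn_compMeasurePreserving (b S) h
  have h3 : (∫ a, inner ℝ ((Lp.compMeasurePreserving (pm π) h (b S)) a)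
      ((Lp.compMeasurePreserving (pm π) h v) a) ∂Pr) =
      ∫ a, (fun ω => inner ℝ ((b S : X2) ω) (v ω)) (pm π a) ∂Pr := by
    refine integral_congr_ae ?_
    filter_upwards [h1, h2] with ω h1 h2
    rw [h1, h2]
    rfl
  rw [h3]
  have hm : AEStronglyMeasurable (fun ω => inner ℝ ((b S : X2) ω) (v ω)) (Measure.map (pm π) Pr) := by
    rw [h.map_eq]
    exact (Lp.aestronglyMeasurable _).inner (Lp.aestronglyMeasurable _)
  rw [← integral_map h.measurable.aemeasurable hm, h.map_eq]

theorem wal_of_basis (h0 : b ∅ = Lp.const 2 Pr (1 : ℝ))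
    (hT : ∀ (π : Equiv.Perm ℕ) (h : MeasurePreserving (pm π) Pr Pr) (S : Finset ℕ),
      Lp.compMeasurePreserving (pm π) h (b S) = b (S.map π.toEmbedding)) : S_WAL :=
  ⟨q b, q_nonneg b, q_add b, q_lip b, q_univ b h0, q_equiv b hT⟩

end Pool.Agent.X77.ELW
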